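import Pool.Agent.H11.NS.Targets

/-!
# Module ZF: non-identity elements survive in the alternating quotients
-/

set_option autoImplicit false

namespace Pool.Agent.H47.NS

open Pool.Agent.H11.NS
open scoped commutatorElement

/-- in a simple group every element is obtained from `x` by finitely many conjugations -/
theorem zf_conj (G : Type) [Group G] [IsSimpleGroup G] (x : G) (hx : x ≠ 1) (y : G) :
    ∃ F : Finset G, ∀ L N : Subgroup G, (∀ z ∈ F, z ∈ L) → (∀ l ∈ L, ∀ z ∈ N, l * z * l⁻¹ ∈ N) →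
      x ∈ N → y ∈ N := by
  classical
  have htop : Subgroup.normalClosure ({x} : Set G) = ⊤ := by
    rcases (Subgroup.normalClosure_normal (s := ({x} : Set G))).eq_bot_or_eq_top with h | h
    · exfalso
      apply hx
      have h1 : x ∈ Subgroup.normalClosure ({x} : Set G) :=
        Subgroup.subset_normalClosure (Set.mem_singleton x)
      rwa [h, Subgroup.mem_bot] at h1
    · exact h
  have hy : y ∈ Subgroup.closure (Group.conjugatesOfSet ({x} : Set G)) := by
    change y ∈ Subgroup.normalClosure ({x} : Set G)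
    rw [htop]
    exact Subgroup.mem_top y
  induction hy using Subgroup.closure_induction with
  | mem z hz =>
    rw [Group.mem_conjugatesOfSet_iff] at hz
    obtain ⟨a, ha, hc⟩ := hz
    rw [Set.mem_singleton_iff] at ha
    subst ha
    rw [isConj_iff] at hc
    obtain ⟨c, rfl⟩ := hc
    exact ⟨{c}, fun L N hL hN hxN => hN c (hL c (Finset.mem_singleton_self c)) a hxN⟩
  | one => exact ⟨∅, fun L N _ _ _ => N.one_mem⟩
  | mul u v _ _ ihu ihv =>
    obtain ⟨F1, h1⟩ := ihu
    obtain ⟨F2, h2⟩ := ihv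
    exact ⟨F1 ∪ F2, fun L N hL hN hxN => N.mul_mem
      (h1 L N (fun z hz => hL z (Finset.mem_union_left _ hz)) hN hxN)
      (h2 L N (fun z hz => hL z (Finset.mem_union_right _ hz)) hN hxN)⟩
  | inv u _ ihu =>
    obtain ⟨F1, h1⟩ := ihu
    exact ⟨F1, fun L N hL hN hxN => N.inv_mem (h1 L N hL hN hxN)⟩

/-- products of commuting subgroups -/
theorem zf_sup {L : Type} [Group L] (A B : Subgroup L) (hAB : ∀ a ∈ A, ∀ b ∈ B, a * b = b * a)
    (x : L) (hx : x ∈ A ⊔ B) : ∃ a ∈ A, ∃ b ∈ B, x = a * b := by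
  rw [Subgroup.sup_eq_closure] at hx
  induction hx using Subgroup.closure_induction with
  | mem z hz =>
    rcases hz with hz | hz
    · exact ⟨z, hz, 1, B.one_mem, (mul_one z).symm⟩
    · exact ⟨1, A.one_mem, z, hz, (one_mul z).symm⟩
  | one => exact ⟨1, A.one_mem, 1, B.one_mem, (mul_one 1).symm⟩
  | mul u v _ _ ihu ihv =>
    obtain ⟨a, ha, b, hb, rfl⟩ := ihu
    obtain ⟨a', ha', b', hb', rfl⟩ := ihv
    refine ⟨a * a', A.mul_mem ha ha', b * b', B.mul_mem hb hb', ?_⟩
    have h1 := hAB a' ha' b hb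
    calc a * b * (a' * b') = a * (b * a') * b' := by group
      _ = a * (a' * b) * b' := by rw [h1]
      _ = a * a' * (b * b') := by group
  | inv u _ ihu =>
    obtain ⟨a, ha, b, hb, rfl⟩ := ihu
    refine ⟨a⁻¹, A.inv_mem ha, b⁻¹, B.inv_mem hb, ?_⟩
    rw [hAB a ha b hb, mul_inv_rev]

/-- the derived series of a subgroup of `A ⊔ B` -/
theorem zf_ds {L E : Type} [Group L] [Group E] (A B : Subgroup L)
    (hAB : ∀ a ∈ A, ∀ b ∈ B, a * b = b * a) (j : E →* L) (hj : ∀ e, j e ∈ A ⊔ B) (i : ℕ) :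
    ∀ e ∈ derivedSeries E i, j e ∈ (derivedSeries A i).map A.subtype ⊔ B := by
  induction i with
  | zero =>
    intro e _
    rw [derivedSeries_zero, ← MonoidHom.range_eq_map, Subgroup.range_subtype]
    exact hj e
  | succ i ih =>
    have h1 : derivedSeries E (i + 1) ≤
        ((derivedSeries A (i + 1)).map A.subtype ⊔ B).comap j := by
      rw [derivedSeries_succ, Subgroup.commutator_le]
      intro g₁ h₁ g₂ h₂
      rw [Subgroup.mem_comap, map_commutatorElement]
      have hle : (derivedSeries A i).map A.subtype ≤ A := Subgroup.map_subtype_le _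
      obtain ⟨a, ha, b, hb, e1⟩ := zf_sup _ B (fun a ha b hb => hAB a (hle ha) b hb) _ (ih g₁ h₁)
      obtain ⟨c, hc, d, hd, e2⟩ := zf_sup _ B (fun a ha b hb => hAB a (hle ha) b hb) _ (ih g₂ h₂)
      have hcb := hAB c (hle hc) b hb
      have hcb' := hAB c (hle hc) b⁻¹ (B.inv_mem hb)
      have had := hAB a (hle ha) d hd
      have key : ⁅a * b, c * d⁆ = ⁅a, c⁆ * ⁅b, d⁆ := by
        have h3 : ∀ u ∈ A, ∀ v ∈ B, Commute u v := fun u hu v hv => hAB u hu v hv
        have cab := h3 a (hle ha) b hb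
        have cad := h3 a (hle ha) d hd
        have ccb := h3 c (hle hc) b hb
        have ccd := h3 c (hle hc) d hd
        simp only [commutatorElement_def, mul_inv_rev]
        calc a * b * (c * d) * (b⁻¹ * a⁻¹) * (d⁻¹ * c⁻¹)
            = a * (b * c) * d * b⁻¹ * (a⁻¹ * d⁻¹) * c⁻¹ := by group
          _ = a * (c * b) * d * b⁻¹ * (d⁻¹ * a⁻¹) * c⁻¹ := by
            rw [ccb.eq, cad.inv_left.inv_right.eq]
          _ = a * c * (b * d * b⁻¹ * d⁻¹) * (a⁻¹ * c⁻¹) := by group
          _ = a * c * ((a⁻¹ * c⁻¹) * (b * d * b⁻¹ * d⁻¹)) := by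
            have h4 : Commute (a⁻¹ * c⁻¹) (b * d * b⁻¹ * d⁻¹) :=
              h3 _ (A.mul_mem (A.inv_mem (hle ha)) (A.inv_mem (hle hc))) _
                (B.mul_mem (B.mul_mem (B.mul_mem hb hd) (B.inv_mem hb)) (B.inv_mem hd))
            rw [mul_assoc (a * c), h4.eq]
          _ = a * c * a⁻¹ * c⁻¹ * (b * d * b⁻¹ * d⁻¹) := by group
      rw [e1, e2, key]
      refine Subgroup.mul_mem_sup ?_ ?_
      · rw [derivedSeries_succ, Subgroup.map_commutator]
        exact Subgroup.commutator_mem_commutator ha hc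
      · rw [commutatorElement_def]
        exact B.mul_mem (B.mul_mem (B.mul_mem hb hd) (B.inv_mem hb)) (B.inv_mem hd)
    intro e he
    exact h1 he

theorem pf_zf : T_ZF := by
  intro G _ _ π hcov x hx
  classical
  obtain ⟨q, hq, hqp⟩ := Nat.exists_infinite_primes (max 5 (π.sup id + 1))
  have hq5 : 5 ≤ q := le_trans (le_max_left _ _) hq
  have hqπ : q ∉ π := by
    intro h
    have h1 : id q ≤ π.sup id := Finset.le_sup h
    have h2 : π.sup id + 1 ≤ q := le_trans (le_max_right _ _) hq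
    have h3 : q ≤ π.sup id := h1
    omega
  obtain ⟨L₀, n₀, φ₀, ⟨hfin₀, hsurj₀, -⟩, -, hn₀⟩ := hcov ∅ q
  choose Fy hFy using zf_conj G x hx
  have : Fintype L₀ := Fintype.ofFinite L₀
  refine ⟨Finset.univ.biUnion fun y : L₀ => Fy y, 0, ?_⟩
  rintro L n φ ⟨hfin, hsurj, A, B, hker, hAB, hnil, hB⟩ hF - hxL hφx
  have hle : ∀ y : L₀, ∃ z : L, (z : G) = y ∧ z ∈ φ.ker := by
    intro y
    have h1 : (y : G) ∈ φ.ker.map L.subtype := by
      refine hFy y L _ (fun z hz => hF z (Finset.mem_biUnion.2 ⟨y, Finset.mem_univ _, hz⟩)) ?_ ?_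
      · rintro l hl z ⟨w, hw, rfl⟩
        refine ⟨⟨l, hl⟩ * w * ⟨l, hl⟩⁻¹, ?_, rfl⟩
        exact (MonoidHom.normal_ker φ).conj_mem w hw ⟨l, hl⟩
      · exact ⟨⟨x, hxL⟩, hφx, rfl⟩
    obtain ⟨z, hz, hzy⟩ := h1
    exact ⟨z, hzy, hz⟩
  have hL0L : L₀ ≤ L := by
    intro y hy
    obtain ⟨z, hz, -⟩ := hle ⟨y, hy⟩
    have h1 : (z : G) = y := hz
    rw [← h1]
    exact z.2
  let j : L₀ →* L := Subgroup.inclusion hL0L
  have hj : ∀ e, j e ∈ A ⊔ B := by
    intro e
    rw [← hker]
    obtain ⟨z, hz, hzk⟩ := hle e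
    have h1 : j e = z := Subtype.ext hz.symm
    rw [h1]
    exact hzk
  have hjinj : Function.Injective j := Subgroup.inclusion_injective hL0L
  -- the part in `B` is normal
  have hnorm : (B.comap j).Normal := by
    constructor
    intro y hy e
    rw [Subgroup.mem_comap] at hy ⊢
    obtain ⟨a, ha, b, hb, hab⟩ := zf_sup A B hAB _ (hj e)
    have h1 : j (e * y * e⁻¹) = b * j y * b⁻¹ := by
      rw [map_mul, map_mul, map_inv, hab, mul_inv_rev]
      have h2 : Commute a (b * j y * b⁻¹) :=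
        hAB a ha _ (B.mul_mem (B.mul_mem hb hy) (B.inv_mem hb))
      calc a * b * j y * (b⁻¹ * a⁻¹) = a * (b * j y * b⁻¹) * a⁻¹ := by group
        _ = b * j y * b⁻¹ * a * a⁻¹ := by rw [h2.eq]
        _ = b * j y * b⁻¹ := by group
    rw [h1]
    exact B.mul_mem (B.mul_mem hb hy) (B.inv_mem hb)
  have hn5 : 5 ≤ Nat.card (Fin n₀) := by
    rw [Nat.card_eq_fintype_card, Fintype.card_fin]
    exact hq5.trans hn₀
  have : IsSimpleGroup (alternatingGroup (Fin n₀)) := alternatingGroup.isSimpleGroup hn5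
  have hnm : ((B.comap j).map φ₀).Normal := hnorm.map φ₀ hsurj₀
  rcases hnm.eq_bot_or_eq_top with h | h
  · -- the alternating group would be soluble
    have := hnil
    have hsolA : Group.IsSolvable A := inferInstance
    obtain ⟨c, hc⟩ := hsolA
    have hds : derivedSeries L₀ c ≤ B.comap j := by
      intro e he
      have h1 := zf_ds A B hAB j hj c e he
      rw [hc, Subgroup.map_bot, bot_sup_eq] at h1
      exact h1
    have h2 : derivedSeries (alternatingGroup (Fin n₀)) c = ⊥ := by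
      rw [← map_derivedSeries_eq hsurj₀, eq_bot_iff, ← h]
      exact Subgroup.map_mono hds
    have hsol : Group.IsSolvable (alternatingGroup (Fin n₀)) := ⟨⟨c, h2⟩⟩
    have hcomm := IsSimpleGroup.comm_iff_isSolvable.2 hsol
    have h3 : IsMulCommutative (alternatingGroup (Fin n₀)) := ⟨⟨hcomm⟩⟩
    rw [alternatingGroup.isMulCommutative_iff_card_le_three] at h3
    omega
  · -- `q` would divide the order of `B`
    have h1 : Nat.card (alternatingGroup (Fin n₀)) ∣ Nat.card B := by
      have h2 : Nat.card ((B.comap j).map φ₀) ∣ Nat.card (B.comap j) := Subgroup.card_map_dvd _ _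
      rw [h, Subgroup.card_top] at h2
      exact h2.trans (Subgroup.card_comap_dvd_of_injective B j hjinj)
    have h2 : q ∣ Nat.card (alternatingGroup (Fin n₀)) := by
      have : Nontrivial (Fin n₀) := Fin.nontrivial_iff_two_le.2 (by omega)
      have h3 : 2 * Nat.card (alternatingGroup (Fin n₀)) = Nat.card (Equiv.Perm (Fin n₀)) :=
        two_mul_nat_card_alternatingGroup
      rw [Nat.card_perm, Nat.card_eq_fintype_card (α := Fin n₀), Fintype.card_fin] at h3
      have h4 : q ∣ 2 * Nat.card (alternatingGroup (Fin n₀)) := by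
        rw [h3]
        exact hqp.dvd_factorial.2 hn₀
      rcases hqp.dvd_mul.1 h4 with h5 | h5
      · have := Nat.le_of_dvd (by norm_num) h5
        omega
      · exact h5
    exact hqπ (hB q hqp (h2.trans h1))

end Pool.Agent.H47.NS

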