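import Pool.Agent.H11.NS.Targets

/-!
# Module U3: finite groups embed in alternating groups
-/

set_option autoImplicit false

namespace Pool.Agent.H47.NS

open Pool.Agent.H11.NS Equiv.Perm

/-- the diagonal action on two copies -/
def two (Λ : Type) [Group Λ] : Λ →* Equiv.Perm (Λ ⊕ Λ) where
  toFun x := Equiv.Perm.sumCongr (Equiv.mulLeft x) (Equiv.mulLeft x)
  map_one' := by
    ext y
    rcases y with y | y <;> simp
  map_mul' a b := by
    ext y
    rcases y with y | y <;> simp [mul_assoc]

theorem pf_u3 : T_U3 := by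
  intro Λ _ _ n hn
  classical
  have : Fintype Λ := Fintype.ofFinite Λ
  have hc : Fintype.card (Λ ⊕ Λ) ≤ Fintype.card (Fin n) := by
    rw [Fintype.card_sum, Fintype.card_fin, ← Nat.card_eq_fintype_card]
    omega
  obtain ⟨e⟩ := Function.Embedding.nonempty_of_card_le hc
  have hdec : DecidablePred fun y : Fin n => y ∈ Set.range e := fun y => Classical.dec _
  have h1 : ∀ x : Λ, ((extendDomainHom (Equiv.ofInjective e e.injective)).comp (two Λ)) x ∈
      alternatingGroup (Fin n) := by
    intro x
    rw [Equiv.Perm.mem_alternatingGroup]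
    change Equiv.Perm.sign ((Equiv.Perm.sumCongr (Equiv.mulLeft x) (Equiv.mulLeft x)).extendDomain
      (Equiv.ofInjective e e.injective)) = 1
    rw [Equiv.Perm.sign_extendDomain, Equiv.Perm.sign_sumCongr, Int.units_mul_self]
  refine ⟨MonoidHom.codRestrict _ _ h1, ?_⟩
  intro x y hxy
  have h2 : ((extendDomainHom (Equiv.ofInjective e e.injective)).comp (two Λ)) x =
      ((extendDomainHom (Equiv.ofInjective e e.injective)).comp (two Λ)) y :=
    congrArg Subtype.val hxy
  have h3 := extendDomainHom_injective _ h2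
  have h4 := congrArg (fun q : Equiv.Perm (Λ ⊕ Λ) => q (Sum.inl 1)) h3
  have h5 : (Sum.inl (x * 1) : Λ ⊕ Λ) = Sum.inl (y * 1) := h4
  have h6 := Sum.inl_injective h5
  rwa [mul_one, mul_one] at h6

end Pool.Agent.H47.NS

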