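import Pool.Agent.H11.NS.Targets

/-!
# Module U4: bounded alternating quotients
-/

set_option autoImplicit false

namespace Pool.Agent.H47.NS

open Pool.Agent.H11.NS

/-- derived series pass to subgroups -/
theorem ds_inj {A B : Type} [Group A] [Group B] (f : A →* B) (hf : Function.Injective f) (k : ℕ)
    (h : derivedSeries B k = ⊥) : derivedSeries A k = ⊥ := by
  have h1 : (derivedSeries A k).map f ≤ ⊥ := by
    rw [← h]
    exact map_derivedSeries_le_derivedSeries f k
  rw [eq_bot_iff]
  intro x hx
  have h2 : f x ∈ (⊥ : Subgroup B) := h1 (Subgroup.mem_map_of_mem f hx)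
  rw [Subgroup.mem_bot] at h2 ⊢
  exact hf (h2.trans (map_one f).symm)

/-- derived series pass to quotients -/
theorem ds_surj {A B : Type} [Group A] [Group B] (f : A →* B) (hf : Function.Surjective f) (k : ℕ)
    (h : derivedSeries A k = ⊥) : derivedSeries B k = ⊥ := by
  rw [← map_derivedSeries_eq hf k, h, Subgroup.map_bot]

theorem ds_add {A : Type} [Group A] (U : Subgroup A) (k : ℕ) (h : derivedSeries A k ≤ U) (i : ℕ) :
    derivedSeries A (k + i) ≤ (derivedSeries U i).map U.subtype := by
  induction i with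
  | zero =>
    rw [derivedSeries_zero, ← MonoidHom.range_eq_map, Subgroup.range_subtype]
    exact h
  | succ i ih =>
    rw [← add_assoc, derivedSeries_succ, derivedSeries_succ, Subgroup.map_commutator]
    exact Subgroup.commutator_mono ih ih

theorem pf_u4 : T_U1 → T_U2 → T_U3 → T_U4 := by
  intro hU1 hU2 hU3 p _ m d
  obtain ⟨Λ, _, _, hΛ, hne⟩ := hU2 p (m + d)
  refine ⟨2 * Nat.card Λ + 1, ?_⟩
  intro G _ hG L _ n φ hφ
  by_contra hn
  obtain ⟨f, hf⟩ := hU3 Λ n (by omega)
  obtain ⟨R⟩ : Nonempty (Sylow p L) := inferInstance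
  -- the image of `f` is conjugate into the image of `R`
  have hrange : IsPGroup p f.range :=
    IsPGroup.of_surjective hΛ f.rangeRestrict f.rangeRestrict_surjective
  obtain ⟨Q, hQ⟩ := hrange.exists_le_sylow
  obtain ⟨a, ha⟩ := MulAction.exists_smul_eq (alternatingGroup (Fin n)) Q (R.mapSurjective hφ)
  have hmem : ∀ x : Λ, a * f x * a⁻¹ ∈ (R : Subgroup L).map φ := by
    intro x
    have h1 : MulAut.conj a (f x) ∈ a • Q := by
      have h2 : f x ∈ (Q : Subgroup (alternatingGroup (Fin n))) := hQ ⟨x, rfl⟩
      exact Subgroup.smul_mem_pointwise_smul _ _ _ h2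
    rw [ha] at h1
    exact h1
  have hR1 : derivedSeries R (m + d) ≠ ⊥ := by
    intro hbot
    apply hne
    have h1 : derivedSeries ((R : Subgroup L).map φ) (m + d) = ⊥ :=
      ds_surj (φ.subgroupMap (R : Subgroup L)) (φ.subgroupMap_surjective _) _ hbot
    refine ds_inj (MonoidHom.codRestrict ((MulAut.conj a).toMonoidHom.comp f) _ hmem) ?_ _ h1
    intro x y hxy
    have h2 : (MulAut.conj a) (f x) = (MulAut.conj a) (f y) := congrArg Subtype.val hxy
    exact hf ((MulAut.conj a).injective h2)
  have hRp : IsPGroup p R := R.2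
  have hnt : Nontrivial R := by
    by_contra hnt
    rw [not_nontrivial_iff_subsingleton] at hnt
    exact hR1 (Subsingleton.elim _ _)
  have hcn := hRp.center_nontrivial
  have hcp : IsPGroup p (Subgroup.center R) := hRp.to_subgroup _
  obtain ⟨e, he, hcard⟩ := hcp.nontrivial_iff_card.1 hcn
  obtain ⟨z, hz⟩ := exists_prime_orderOf_dvd_card' (G := Subgroup.center R) p
    (hcard ▸ dvd_pow_self p he.ne')
  have hg : orderOf (((z : R) : L) : G) = p := by
    rw [Subgroup.orderOf_coe, Subgroup.orderOf_coe, Subgroup.orderOf_coe, hz]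
  obtain ⟨H, hH0, hHm, hHd⟩ := hG _ hg
  -- the embedding of `R`
  have hcomm : ∀ r : R, ((r : L) : G) ∈ Subgroup.centralizer ({(((z : R) : L) : G)} : Set G) := by
    intro r
    rw [Subgroup.mem_centralizer_singleton_iff]
    have h1 := Subgroup.mem_center_iff.1 z.2 r
    have h2 := congrArg (fun t : R => ((t : L) : G)) h1
    exact h2
  let j : R →* Subgroup.centralizer ({(((z : R) : L) : G)} : Set G) :=
    MonoidHom.codRestrict (L.subtype.comp (R : Subgroup L).subtype) _ hcomm
  have hj : Function.Injective j := by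
    intro x y hxy
    have h2 : (j x : G) = (j y : G) := by rw [hxy]
    exact Subtype.ext (Subtype.ext h2)
  have hidx : (H.comap j).index ≤ p ^ m := by
    rw [Subgroup.index_comap]
    have h1 : H.relIndex j.range ≤ H.relIndex ⊤ :=
      Subgroup.relIndex_le_of_le_right le_top (by rwa [Subgroup.relIndex_top_right])
    rw [Subgroup.relIndex_top_right] at h1
    exact (h1.trans hHm).trans (Nat.lt_pow_self (Fact.out : p.Prime).one_lt).le
  have hder := hU1 p m R hRp (H.comap j) hidx
  have hU : derivedSeries (H.comap j) d = ⊥ := by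
    refine ds_inj (j.subgroupComap H) ?_ d hHd
    intro x y hxy
    have h2 : j x = j y := congrArg Subtype.val hxy
    exact Subtype.ext (hj h2)
  have hfin := ds_add (H.comap j) m hder d
  rw [hU, Subgroup.map_bot, le_bot_iff] at hfin
  exact hR1 hfin

end Pool.Agent.H47.NS

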